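import Pool.Agent.Y184.NT.St

set_option autoImplicit false

/-!
# Project NT: the base of a congruence of lines of order one is rational
-/

open Polynomial

namespace Pool.Agent.Y484.NT

open Pool.Agent.Y184.NT

/-- evaluation of a form at a multiple of a point -/
theorem aeval_scale {m : ℕ} {L : Type} [Field L] [Algebra ℂ L] {G : MvPolynomial (Fin m) ℂ}
    {d : ℕ} (hG : G.IsHomogeneous d) (c : L) (x : Fin m → L) :
    MvPolynomial.aeval (fun j => c * x j) G = c ^ d * MvPolynomial.aeval x G := by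
  rw [MvPolynomial.aeval_def, MvPolynomial.aeval_def, MvPolynomial.eval₂_eq',
    MvPolynomial.eval₂_eq', Finset.mul_sum]
  refine Finset.sum_congr rfl fun s hs => ?_
  have h1 : d = ∑ j, s j := by
    have h2 := hG (MvPolynomial.mem_support_iff.1 hs)
    rw [← h2, Finsupp.weight_apply, Finsupp.sum_fintype]
    · simp
    · simp
  rw [Finset.prod_congr rfl fun j _ => mul_pow c (x j) (s j), Finset.prod_mul_distrib,
    Finset.prod_pow_eq_pow_sum, ← h1]
  ring

section

variable {L : Type} [Field L] [Algebra ℂ L] {n : ℕ}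

/-- ratios of forms of the same degree, restricted to the line -/
def Pr (a b : Fin (n + 2) → L) (t : RatFunc L) : Prop :=
  ∃ (d : ℕ) (G H : MvPolynomial (Fin (n + 2)) ℂ), G.IsHomogeneous d ∧ H.IsHomogeneous d ∧
    restr H a b ≠ 0 ∧ t = algebraMap L[X] (RatFunc L) (restr G a b) /
      algebraMap L[X] (RatFunc L) (restr H a b)

theorem restr_mul (a b : Fin (n + 2) → L) (G H : MvPolynomial (Fin (n + 2)) ℂ) :
    restr (G * H) a b = restr G a b * restr H a b := map_mul _ _ _

theorem restr_add (a b : Fin (n + 2) → L) (G H : MvPolynomial (Fin (n + 2)) ℂ) :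
    restr (G + H) a b = restr G a b + restr H a b := map_add _ _ _

theorem restr_one (a b : Fin (n + 2) → L) :
    restr (1 : MvPolynomial (Fin (n + 2)) ℂ) a b = 1 := map_one _

theorem restr_zero (a b : Fin (n + 2) → L) :
    restr (0 : MvPolynomial (Fin (n + 2)) ℂ) a b = 0 := map_zero _

theorem restr_X (a b : Fin (n + 2) → L) (j : Fin (n + 2)) :
    restr (MvPolynomial.X j : MvPolynomial (Fin (n + 2)) ℂ) a b = lin a b j :=
  MvPolynomial.aeval_X _ _

theorem restr_C (a b : Fin (n + 2) → L) (c : ℂ) :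
    restr (MvPolynomial.C c : MvPolynomial (Fin (n + 2)) ℂ) a b = algebraMap ℂ L[X] c :=
  MvPolynomial.aeval_C _ _

theorem am_ne {P : L[X]} (h : P ≠ 0) : algebraMap L[X] (RatFunc L) P ≠ 0 :=
  (map_ne_zero_iff _ (IsFractionRing.injective L[X] (RatFunc L))).2 h

theorem pr_zero (a b : Fin (n + 2) → L) : Pr a b 0 := by
  refine ⟨0, 0, 1, MvPolynomial.isHomogeneous_zero _ _ _, MvPolynomial.isHomogeneous_one _ _, ?_, ?_⟩
  · rw [restr_one]
    exact one_ne_zero
  · rw [restr_zero, map_zero, zero_div]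

theorem pr_of_mem (a b : Fin (n + 2) → L) {t : RatFunc L}
    (ht : t ∈ IntermediateField.adjoin ℂ (Set.range fun p : Fin (n + 2) × Fin (n + 2) =>
      algebraMap L[X] (RatFunc L) (lin a b p.1) / algebraMap L[X] (RatFunc L) (lin a b p.2))) :
    Pr a b t := by
  induction ht using IntermediateField.adjoin_induction with
  | mem x hx =>
    obtain ⟨⟨i, j⟩, rfl⟩ := hx
    by_cases h : lin a b j = 0
    · change Pr a b (algebraMap L[X] (RatFunc L) (lin a b i) /
        algebraMap L[X] (RatFunc L) (lin a b j))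
      rw [h, map_zero, div_zero]
      exact pr_zero a b
    · refine ⟨1, MvPolynomial.X i, MvPolynomial.X j, MvPolynomial.isHomogeneous_X _ _,
        MvPolynomial.isHomogeneous_X _ _, ?_, ?_⟩
      · rw [restr_X]
        exact h
      · rw [restr_X, restr_X]
  | algebraMap c =>
    refine ⟨0, MvPolynomial.C c, 1, MvPolynomial.isHomogeneous_C _ _,
      MvPolynomial.isHomogeneous_one _ _, ?_, ?_⟩
    · rw [restr_one]
      exact one_ne_zero
    · rw [restr_one, restr_C, map_one, div_one]
      exact IsScalarTower.algebraMap_apply ℂ L[X] (RatFunc L) c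
  | add x y _ _ hx hy =>
    obtain ⟨d, G, H, h1, h2, h3, h4⟩ := hx
    obtain ⟨d', G', H', h1', h2', h3', h4'⟩ := hy
    refine ⟨d + d', G * H' + H * G', H * H', (h1.mul h2').add (h2.mul h1'), h2.mul h2', ?_, ?_⟩
    · rw [restr_mul]
      exact mul_ne_zero h3 h3'
    · rw [h4, h4', div_add_div _ _ (am_ne h3) (am_ne h3'), restr_add, restr_mul, restr_mul,
        restr_mul, map_add, map_mul, map_mul, map_mul]
  | inv x _ hx =>
    obtain ⟨d, G, H, h1, h2, h3, h4⟩ := hx
    by_cases h : restr G a b = 0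
    · rw [h4, h, map_zero, zero_div, inv_zero]
      exact pr_zero a b
    · exact ⟨d, H, G, h2, h1, h, by rw [h4, inv_div]⟩
  | mul x y _ _ hx hy =>
    obtain ⟨d, G, H, h1, h2, h3, h4⟩ := hx
    obtain ⟨d', G', H', h1', h2', h3', h4'⟩ := hy
    refine ⟨d + d', G * G', H * H', h1.mul h1', h2.mul h2', ?_, ?_⟩
    · rw [restr_mul]
      exact mul_ne_zero h3 h3'
    · rw [h4, h4', div_mul_div_comm, restr_mul, restr_mul, map_mul, map_mul]

/-- specialisation of the parameter of the line -/
theorem eval_restr (a b : Fin (n + 2) → L) (G : MvPolynomial (Fin (n + 2)) ℂ) (c : L) :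
    (restr G a b).eval c = MvPolynomial.aeval (fun j => a j + c * b j) G := by
  induction G using MvPolynomial.induction_on with
  | C r =>
    rw [restr_C, MvPolynomial.aeval_C, Polynomial.algebraMap_apply, Polynomial.eval_C]
  | add p q hp hq => rw [restr_add, Polynomial.eval_add, hp, hq, map_add]
  | mul_X p j hp =>
    rw [restr_mul, restr_X, Polynomial.eval_mul, hp, map_mul, MvPolynomial.aeval_X]
    unfold lin
    rw [Polynomial.eval_add, Polynomial.eval_C, Polynomial.eval_mul, Polynomial.eval_X,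
      Polynomial.eval_C]

/-- an element of the base is generated by the ratios of the coordinates of almost every point -/
theorem mem_of_eval (a b : Fin (n + 2) → L) (i2 : Fin (n + 2)) {f : L}
    {d : ℕ} {G H : MvPolynomial (Fin (n + 2)) ℂ} (hG : G.IsHomogeneous d) (hH : H.IsHomogeneous d)
    (hH0 : restr H a b ≠ 0)
    (hf : algebraMap L[X] (RatFunc L) (C f) = algebraMap L[X] (RatFunc L) (restr G a b) /
      algebraMap L[X] (RatFunc L) (restr H a b)) {c : L} (hc : (restr H a b).eval c ≠ 0)
    (hi : a i2 + c * b i2 ≠ 0) :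
    f ∈ IntermediateField.adjoin ℂ (Set.range fun j : Fin (n + 2) =>
      (a j + c * b j) / (a i2 + c * b i2)) := by
  have h1 : C f * restr H a b = restr G a b := by
    rw [eq_div_iff (am_ne hH0), ← map_mul] at hf
    exact IsFractionRing.injective L[X] (RatFunc L) hf
  have h2 := congrArg (Polynomial.eval c) h1
  rw [Polynomial.eval_mul, Polynomial.eval_C] at h2
  have h3 : ∀ F : MvPolynomial (Fin (n + 2)) ℂ, F.IsHomogeneous d → (restr F a b).eval c =
      (a i2 + c * b i2) ^ d * MvPolynomial.aeval (fun j : Fin (n + 2) =>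
        (a j + c * b j) / (a i2 + c * b i2)) F := by
    intro F hF
    rw [eval_restr, ← aeval_scale hF]
    congr 2
    funext j
    rw [mul_div_cancel₀ _ hi]
  rw [h3 G hG, h3 H hH] at h2
  rw [h3 H hH] at hc
  have h4 : MvPolynomial.aeval (fun j : Fin (n + 2) =>
        (a j + c * b j) / (a i2 + c * b i2)) H ≠ 0 := fun h => hc (by rw [h, mul_zero])
  have h5 : f = MvPolynomial.aeval (fun j : Fin (n + 2) =>
        (a j + c * b j) / (a i2 + c * b i2)) G / MvPolynomial.aeval (fun j : Fin (n + 2) =>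
        (a j + c * b j) / (a i2 + c * b i2)) H := by
    rw [eq_div_iff h4]
    apply mul_left_cancel₀ (pow_ne_zero d hi)
    linear_combination h2
  have h6 : ∀ F : MvPolynomial (Fin (n + 2)) ℂ, MvPolynomial.aeval (fun j : Fin (n + 2) =>
        (a j + c * b j) / (a i2 + c * b i2)) F ∈ IntermediateField.adjoin ℂ
        (Set.range fun j : Fin (n + 2) => (a j + c * b j) / (a i2 + c * b i2)) := by
    intro F
    apply IntermediateField.algebra_adjoin_le_adjoin
    rw [Algebra.adjoin_range_eq_range_aeval]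
    exact ⟨F, rfl⟩
  rw [h5]
  exact div_mem (h6 G) (h6 H)

end

/-- **the base of a congruence of lines of order one is rational** -/
theorem rat : StRat := by
  classical
  intro L _ _ _ n htr a b hab hgen
  -- the two coordinates
  have hb : ∃ i2, b i2 ≠ 0 := by
    by_contra h
    push Not at h
    have h1 : b = 0 := funext h
    exact hab.ne_zero 1 (by simpa using h1)
  obtain ⟨i2, hi2⟩ := hb
  have hD : ∃ i1, a i1 * b i2 - a i2 * b i1 ≠ 0 := by
    by_contra h
    push Not at h
    have h1 := (LinearIndependent.pair_iff.1 hab) (b i2) (-(a i2)) (by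
      funext j
      simp only [Pi.add_apply, Pi.smul_apply, smul_eq_mul, Pi.zero_apply]
      linear_combination h j)
    exact hi2 h1.1
  obtain ⟨i1, hi1⟩ := hD
  have hi12 : i1 ≠ i2 := by
    intro h
    rw [h] at hi1
    exact hi1 (by ring)
  -- generators
  obtain ⟨S, hS⟩ := IntermediateField.fg_top ℂ L
  have hex : ∀ f : L, ∃ (d : ℕ) (G H : MvPolynomial (Fin (n + 2)) ℂ), G.IsHomogeneous d ∧
      H.IsHomogeneous d ∧ restr H a b ≠ 0 ∧ algebraMap L[X] (RatFunc L) (C f) =
        algebraMap L[X] (RatFunc L) (restr G a b) / algebraMap L[X] (RatFunc L) (restr H a b) := by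
    intro f
    have h1 : algebraMap L[X] (RatFunc L) (C f) ∈ IntermediateField.adjoin ℂ
        (Set.range fun p : Fin (n + 2) × Fin (n + 2) => algebraMap L[X] (RatFunc L) (lin a b p.1) /
          algebraMap L[X] (RatFunc L) (lin a b p.2)) := by
      rw [hgen]
      exact IntermediateField.mem_top
    exact pr_of_mem a b h1
  choose d G H hG hH hH0 hGH using hex
  -- the bad values
  obtain ⟨B, hB⟩ : ∃ B : Finset L, B = S.biUnion (fun f => (restr (H f) a b).roots.toFinset) ∪
      (lin a b i2).roots.toFinset := ⟨_, rfl⟩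
  have hlin : lin a b i2 ≠ 0 := by
    intro h
    apply hi2
    have h1 := congrArg (fun P : L[X] => P.coeff 1) h
    unfold lin at h1
    simpa using h1
  have hgood : ∀ c : L, c ∉ B → (∀ f ∈ S, (restr (H f) a b).eval c ≠ 0) ∧
      a i2 + c * b i2 ≠ 0 := by
    intro c hc
    rw [hB, Finset.mem_union, not_or] at hc
    refine ⟨fun f hf h => ?_, fun h => ?_⟩
    · apply hc.1
      rw [Finset.mem_biUnion]
      refine ⟨f, hf, ?_⟩
      rw [Multiset.mem_toFinset, Polynomial.mem_roots (hH0 f)]
      exact h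
    · apply hc.2
      rw [Multiset.mem_toFinset, Polynomial.mem_roots hlin]
      unfold lin
      change Polynomial.eval c _ = 0
      rw [Polynomial.eval_add, Polynomial.eval_C, Polynomial.eval_mul, Polynomial.eval_X,
        Polynomial.eval_C]
      exact h
  -- the points with constant ratio
  obtain ⟨cf, hcf⟩ : ∃ cf : ℂ → L, ∀ μ, cf μ = -(a i1 - algebraMap ℂ L μ * a i2) /
      (b i1 - algebraMap ℂ L μ * b i2) := ⟨_, fun _ => rfl⟩
  have hinf : ∃ μ : ℂ, b i1 - algebraMap ℂ L μ * b i2 ≠ 0 ∧ cf μ ∉ B := by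
    have h1 : (Set.univ \ {μ : ℂ | b i1 - algebraMap ℂ L μ * b i2 = 0}).Infinite := by
      refine Set.infinite_univ.sdiff (Set.Subsingleton.finite ?_)
      intro μ hμ ν hν
      have h2 : b i1 - algebraMap ℂ L μ * b i2 = 0 := hμ
      have h3 : b i1 - algebraMap ℂ L ν * b i2 = 0 := hν
      apply (algebraMap ℂ L).injective
      apply mul_right_cancel₀ hi2
      linear_combination h3 - h2
    have h2 : Set.InjOn cf (Set.univ \ {μ : ℂ | b i1 - algebraMap ℂ L μ * b i2 = 0}) := by
      intro μ hμ ν hν h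
      have h2 : b i1 - algebraMap ℂ L μ * b i2 ≠ 0 := hμ.2
      have h3 : b i1 - algebraMap ℂ L ν * b i2 ≠ 0 := hν.2
      rw [hcf, hcf, div_eq_div_iff h2 h3] at h
      apply (algebraMap ℂ L).injective
      apply mul_right_cancel₀ hi1
      linear_combination -h
    obtain ⟨c, ⟨μ, hμ, rfl⟩, hc⟩ := (h1.image h2).exists_notMem_finset B
    exact ⟨μ, hμ.2, hc⟩
  obtain ⟨μ, hμ, hcB⟩ := hinf
  obtain ⟨c, hc⟩ : ∃ c, c = cf μ := ⟨_, rfl⟩
  rw [← hc] at hcB
  obtain ⟨hcS, hci⟩ := hgood c hcB
  have hrat : (a i1 + c * b i1) / (a i2 + c * b i2) = algebraMap ℂ L μ := by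
    rw [div_eq_iff hci]
    have h1 : c * (b i1 - algebraMap ℂ L μ * b i2) = -(a i1 - algebraMap ℂ L μ * a i2) := by
      rw [hc, hcf, div_mul_cancel₀ _ hμ]
    linear_combination h1
  -- the field is generated by the ratios
  have htop : IntermediateField.adjoin ℂ (Set.range fun j : Fin (n + 2) =>
      (a j + c * b j) / (a i2 + c * b i2)) = ⊤ := by
    rw [eq_top_iff, ← hS, IntermediateField.adjoin_le_iff]
    intro f hf
    exact mem_of_eval a b i2 (hG f) (hH f) (hH0 f) (hGH f) (hcS f hf) hci
  -- reindexing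
  have hcard : Fintype.card {j : Fin (n + 2) // j ≠ i1 ∧ j ≠ i2} = n := by
    rw [Fintype.card_subtype]
    have h1 : (Finset.univ.filter fun j : Fin (n + 2) => j ≠ i1 ∧ j ≠ i2) =
        (Finset.univ.erase i1).erase i2 := by
      ext j
      simp only [Finset.mem_filter, Finset.mem_univ, true_and, Finset.mem_erase]
      tauto
    rw [h1, Finset.card_erase_of_mem (Finset.mem_erase.2 ⟨hi12.symm, Finset.mem_univ _⟩),
      Finset.card_erase_of_mem (Finset.mem_univ _), Finset.card_univ, Fintype.card_fin]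
    omega
  obtain ⟨e⟩ : Nonempty (Fin n ≃ {j : Fin (n + 2) // j ≠ i1 ∧ j ≠ i2}) :=
    ⟨(Fintype.equivFinOfCardEq hcard).symm⟩
  obtain ⟨f, hf⟩ : ∃ f : Fin n → L, ∀ k, f k = (a (e k).1 + c * b (e k).1) /
      (a i2 + c * b i2) := ⟨_, fun _ => rfl⟩
  have hftop : IntermediateField.adjoin ℂ (Set.range f) = ⊤ := by
    rw [eq_top_iff, ← htop, IntermediateField.adjoin_le_iff]
    rintro _ ⟨j, rfl⟩
    change (a j + c * b j) / (a i2 + c * b i2) ∈ IntermediateField.adjoin ℂ (Set.range f)
    by_cases h1 : j = i1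
    · rw [h1, hrat]
      exact IntermediateField.algebraMap_mem _ μ
    · by_cases h2 : j = i2
      · rw [h2, div_self hci]
        exact one_mem _
      · apply IntermediateField.subset_adjoin
        refine ⟨e.symm ⟨j, h1, h2⟩, ?_⟩
        rw [hf, Equiv.apply_symm_apply]
  refine ⟨f, ?_, hftop⟩
  have halg : Algebra.IsAlgebraic (Algebra.adjoin ℂ (Set.range f)) L := by
    refine ⟨fun x => ?_⟩
    have hx : x ∈ IntermediateField.adjoin ℂ (Set.range f) := by
      rw [hftop]
      exact IntermediateField.mem_top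
    rw [IntermediateField.mem_adjoin_iff_div] at hx
    obtain ⟨r, hr, s, hs, hx⟩ := hx
    by_cases hs0 : s = 0
    · rw [hx, hs0, div_zero]
      exact isAlgebraic_zero
    · refine ⟨C ⟨s, hs⟩ * X - C ⟨r, hr⟩, ?_, ?_⟩
      · intro h
        have h1 := congrArg (fun P => P.coeff 1) h
        simp only [coeff_sub, coeff_C_mul, coeff_X_one, mul_one, coeff_C_succ, sub_zero,
          coeff_zero] at h1
        exact hs0 (congrArg Subtype.val h1)
      · rw [map_sub, map_mul, aeval_C, aeval_C, aeval_X, hx]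
        change s * (r / s) - r = 0
        rw [mul_div_cancel₀ _ hs0, sub_self]
  refine (Algebra.IsAlgebraic.isTranscendenceBasis_of_le_trdeg_of_finite ℂ f ?_).1
  rw [htr, Cardinal.mk_fin]

end Pool.Agent.Y484.NT
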